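import Pool.Agent.Run7.h207.Ortho.Main

/-!
# An orthostack with simple faces and without edge unfolding

The polyhedron is a box with four thin L-shaped ridges which cross the four edges of its front
face.
-/

set_option autoImplicit false

namespace Pool.Agent.Results.MP_306cd6_co.NoEdgeUnfolding

open Pool.Agent.Run7.h207.Ortho

/-- There is an orthostack, all of whose faces are simple polygons, without an edge unfolding. -/
theorem result : ∃ K : Set (Pt 3), Orthostack K ∧ SimpleFaces K ∧ ¬ HasEdgeUnfolding K :=
  main

end Pool.Agent.Results.MP_306cd6_co.NoEdgeUnfolding
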